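import Mathlib

/-!
# MP_2738db_nt, Theorem X, block DPQ, part 4: numerical inequalities for large `t` (helper46)
-/

set_option autoImplicit false

namespace Pool.Agent.Work.MP_2738db_nt_X.helper46

/-- the range of `k₀` is long -/
theorem num_K {t a μ κ l D₀ : ℝ} (ht : 0 < t) (hκ1 : κ ≤ 1 / 100) (hμκ : μ ≤ κ / 256)
    (ha : a ≤ μ * t) (h2 : Real.log 2 ≤ μ * t) (hl : 0 < l) (hla : Real.log l ≤ a)
    (hD0 : 1 ≤ D₀) (hD1 : D₀ ≤ Real.exp (κ / 4 * t)) :
    Real.exp ((9 / 10) * t) ≤ Real.exp t / (2 * l * D₀) := by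
  rw [le_div_iff₀ (by positivity)]
  have e1 : l ≤ Real.exp (μ * t) := by
    rw [← Real.exp_log hl]
    exact Real.exp_le_exp.2 (hla.trans ha)
  have e2 : (2 : ℝ) ≤ Real.exp (μ * t) := by
    rw [← Real.log_le_iff_le_exp (by norm_num)]
    exact h2
  calc Real.exp ((9 / 10) * t) * (2 * l * D₀)
      ≤ Real.exp ((9 / 10) * t) * (Real.exp (μ * t) * Real.exp (μ * t) *
          Real.exp (κ / 4 * t)) := by gcongr
    _ = Real.exp ((9 / 10) * t + (μ * t + μ * t + κ / 4 * t)) := by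
        rw [Real.exp_add, Real.exp_add, Real.exp_add]
    _ ≤ Real.exp t := by
        apply Real.exp_le_exp.2
        have h3 : μ * t ≤ (1 / 25600) * t := mul_le_mul_of_nonneg_right (by linarith) ht.le
        have h4 : κ / 4 * t ≤ (1 / 400) * t := mul_le_mul_of_nonneg_right (by linarith) ht.le
        linarith

theorem num_G {t a μ c l : ℝ} (ht : 0 < t) (hc : 0 < c) (ha : a ≤ μ * t)
    (h1 : Real.log t ≤ μ * t) (h3 : Real.log (64 / c ^ 2) ≤ μ * t) (hl : 0 < l)
    (hla : Real.log l ≤ a) : 64 * l * t / c ^ 2 ≤ Real.exp (3 * (μ * t)) := by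
  have e1 : l ≤ Real.exp (μ * t) := by
    rw [← Real.exp_log hl]
    exact Real.exp_le_exp.2 (hla.trans ha)
  have e2 : t ≤ Real.exp (μ * t) := by
    rw [← Real.log_le_iff_le_exp ht]
    exact h1
  have e3 : 64 / c ^ 2 ≤ Real.exp (μ * t) := by
    rw [← Real.log_le_iff_le_exp (by positivity)]
    exact h3
  calc 64 * l * t / c ^ 2 = (64 / c ^ 2) * l * t := by ring
    _ ≤ Real.exp (μ * t) * Real.exp (μ * t) * Real.exp (μ * t) := by gcongr
    _ = Real.exp (3 * (μ * t)) := by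
        rw [← Real.exp_add, ← Real.exp_add]
        congr 1
        ring

/-- `(0)`: small `k₀` are negligible -/
theorem num_0 {t μ κ c l K : ℝ} (ht : 0 < t) (hκ1 : κ ≤ 1 / 100) (hμκ : μ ≤ κ / 256)
    (hc : 0 < c) (hl : 0 < l) (hK : Real.exp ((9 / 10) * t) ≤ K)
    (hG : 64 * l * t / c ^ 2 ≤ Real.exp (3 * (μ * t))) :
    K ^ (9 / 10 : ℝ) ≤ c * (c * K / (4 * l * t)) / 16 := by
  have hK0 : 0 < K := (Real.exp_pos _).trans_le hK
  have e1 : Real.exp (3 * (μ * t)) ≤ K ^ (1 / 10 : ℝ) := by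
    calc Real.exp (3 * (μ * t)) ≤ Real.exp ((9 / 10) * t * (1 / 10)) := by
          apply Real.exp_le_exp.2
          have h3 : μ * t ≤ (1 / 25600) * t := mul_le_mul_of_nonneg_right (by linarith) ht.le
          linarith
      _ = (Real.exp ((9 / 10) * t)) ^ (1 / 10 : ℝ) := by rw [Real.exp_mul]
      _ ≤ K ^ (1 / 10 : ℝ) := Real.rpow_le_rpow (Real.exp_pos _).le hK (by norm_num)
  have e2 : K = K ^ (9 / 10 : ℝ) * K ^ (1 / 10 : ℝ) := by
    rw [← Real.rpow_add hK0]
    norm_num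
  have e3 : K ^ (9 / 10 : ℝ) * (64 * l * t / c ^ 2) ≤ K := by
    nth_rewrite 2 [e2]
    exact mul_le_mul_of_nonneg_left (hG.trans e1) (by positivity)
  have e4 : c * (c * K / (4 * l * t)) / 16 = K / (64 * l * t / c ^ 2) := by
    field_simp
    ring
  rw [e4, le_div_iff₀ (by positivity)]
  exact e3

/-- `(2)`: large common primes are negligible -/
theorem num_2 {t a μ κ c l K : ℝ} (ht : 0 < t) (hκ : 0 < κ) (hμκ : μ ≤ κ / 256)
    (ha : a ≤ μ * t) (hc : 0 < c) (hl : 0 < l) (hK : 0 < K)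
    (hG : 64 * l * t / c ^ 2 ≤ Real.exp (3 * (μ * t))) :
    Real.exp a * (K / Real.exp (κ * t / 8)) ≤ c * (c * K / (4 * l * t)) / 16 := by
  have e4 : c * (c * K / (4 * l * t)) / 16 = K / (64 * l * t / c ^ 2) := by
    field_simp
    ring
  rw [e4, le_div_iff₀ (by positivity)]
  have e1 : Real.exp a * (64 * l * t / c ^ 2) ≤ Real.exp (κ * t / 8) := by
    calc Real.exp a * (64 * l * t / c ^ 2) ≤ Real.exp (μ * t) * Real.exp (3 * (μ * t)) := by
          gcongr
      _ = Real.exp (4 * (μ * t)) := by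
          rw [← Real.exp_add]
          congr 1
          ring
      _ ≤ Real.exp (κ * t / 8) := by
          apply Real.exp_le_exp.2
          have h3 : μ * t ≤ (κ / 256) * t := mul_le_mul_of_nonneg_right hμκ ht.le
          have h4 : 0 < κ * t := by positivity
          linarith
  calc Real.exp a * (K / Real.exp (κ * t / 8)) * (64 * l * t / c ^ 2)
      = (Real.exp a * (64 * l * t / c ^ 2)) * (K / Real.exp (κ * t / 8)) := by ring
    _ ≤ Real.exp (κ * t / 8) * (K / Real.exp (κ * t / 8)) := by gcongr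
    _ = K := by field_simp

/-- `(1)`: medium common primes are negligible -/
theorem num_1 {a c C w : ℝ} (hc : 0 < c) (hc1 : c ≤ 1) (hC : 1 ≤ C) (hw : 0 ≤ w)
    (ha : Real.log (32 * C / c) ≤ a) :
    Real.exp a * (C * w / (Real.exp (2 * a) - 1)) ≤ c * w / 16 := by
  have e1 : 32 * C / c ≤ Real.exp a := by
    rw [← Real.log_le_iff_le_exp (by positivity)]
    exact ha
  have e0 : (32 : ℝ) ≤ 32 * C / c := by
    rw [le_div_iff₀ hc]
    linarith
  have e2 : Real.exp (2 * a) = Real.exp a * Real.exp a := by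
    rw [← Real.exp_add]
    congr 1
    ring
  set E := Real.exp a with hE
  have hE32 : 32 ≤ E := e0.trans e1
  have e3 : E * E / 2 ≤ E * E - 1 := by nlinarith
  rw [e2]
  have e5 : C * w / (E * E - 1) ≤ C * w / (E * E / 2) :=
    div_le_div_of_nonneg_left (by positivity) (by positivity) e3
  have e6 : E * (C * w / (E * E / 2)) = w * (2 * C / E) := by
    field_simp
  have e7 : 2 * C / E ≤ c / 16 := by
    rw [div_le_iff₀ (by linarith)]
    rw [div_le_iff₀ hc] at e1
    linarith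
  calc E * (C * w / (E * E - 1)) ≤ E * (C * w / (E * E / 2)) :=
        mul_le_mul_of_nonneg_left e5 (by linarith)
    _ = w * (2 * C / E) := e6
    _ ≤ w * (c / 16) := mul_le_mul_of_nonneg_left e7 hw
    _ = c * w / 16 := by ring

/-- `(3)`: smooth common factors are negligible -/
theorem num_3 {b c C w : ℝ} (hc : 0 < c) (hC : 1 ≤ C) (hw : 0 ≤ w)
    (hb : Real.log (16 * C / c) ≤ b) : C * w * Real.exp (-b) ≤ c * w / 16 := by
  have e1 : 16 * C / c ≤ Real.exp b := by
    rw [← Real.log_le_iff_le_exp (by positivity)]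
    exact hb
  rw [div_le_iff₀ hc] at e1
  have e2 : Real.exp (-b) * Real.exp b = 1 := by
    rw [← Real.exp_add]
    simp
  have e3 : 0 < Real.exp (-b) := Real.exp_pos _
  have e4 : 16 * C * Real.exp (-b) ≤ c := by
    calc 16 * C * Real.exp (-b) ≤ (Real.exp b * c) * Real.exp (-b) := by gcongr
      _ = (Real.exp (-b) * Real.exp b) * c := by ring
      _ = c := by rw [e2, one_mul]
  have e5 : 16 * C * Real.exp (-b) * w ≤ c * w := mul_le_mul_of_nonneg_right e4 hw
  linarith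

theorem num_S {t κ K : ℝ} (ht : 0 < t) (hκ1 : κ ≤ 1 / 100)
    (hK : Real.exp ((9 / 10) * t) ≤ K) : Real.exp (κ * t / 8) ≤ K ^ (3 / 10 : ℝ) := by
  calc Real.exp (κ * t / 8) ≤ Real.exp ((9 / 10) * t * (3 / 10)) := by
        apply Real.exp_le_exp.2
        have h3 : κ * t ≤ (1 / 100) * t := mul_le_mul_of_nonneg_right hκ1 ht.le
        linarith
    _ = (Real.exp ((9 / 10) * t)) ^ (3 / 10 : ℝ) := by rw [Real.exp_mul]
    _ ≤ K ^ (3 / 10 : ℝ) := Real.rpow_le_rpow (Real.exp_pos _).le hK (by norm_num)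

/-- the sizes of the moduli -/
theorem num_m {t a μ κ l d s : ℝ} (ht : 0 < t) (hκ : 0 < κ) (hμκ : μ ≤ κ / 256)
    (ha : a ≤ μ * t) (h2 : Real.log 2 ≤ μ * t) (hl : 0 < l) (hla : Real.log l ≤ a) (hd0 : 0 ≤ d)
    (hd : d ≤ Real.exp (κ / 4 * t)) (hs0 : 0 ≤ s) (hs : s ≤ Real.exp (κ * t / 8)) :
    2 * l * d * s ≤ Real.exp (κ * t) := by
  have e1 : l ≤ Real.exp (μ * t) := by
    rw [← Real.exp_log hl]
    exact Real.exp_le_exp.2 (hla.trans ha)
  have e2 : (2 : ℝ) ≤ Real.exp (μ * t) := by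
    rw [← Real.log_le_iff_le_exp (by norm_num)]
    exact h2
  calc 2 * l * d * s ≤ Real.exp (μ * t) * Real.exp (μ * t) * Real.exp (κ / 4 * t) *
        Real.exp (κ * t / 8) := by gcongr
    _ = Real.exp (μ * t + μ * t + κ / 4 * t + κ * t / 8) := by
        rw [Real.exp_add, Real.exp_add, Real.exp_add]
    _ ≤ Real.exp (κ * t) := by
        apply Real.exp_le_exp.2
        have h3 : μ * t ≤ (κ / 256) * t := mul_le_mul_of_nonneg_right hμκ ht.le
        have h4 : 0 < κ * t := by positivity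
        linarith

/-- the final comparison -/
theorem num_F {t a μ η κ c l N : ℝ} (ht : 0 < t) (hη : 0 < η) (hκ : 0 < κ)
    (hμ : μ ≤ η * κ / 256) (hc : 0 < c) (ha : a ≤ μ * t) (h1 : Real.log t ≤ μ * t)
    (h3 : Real.log (64 / c ^ 2) ≤ μ * t) (hl : 0 < l) (hla : Real.log l ≤ a)
    (hN : Real.exp (η * (κ / 4) * t / 4) / t ≤ N) :
    Real.exp (η * (κ / 4) / 16 * t) < N * (3 * c ^ 2 / (16 * l * t)) := by
  have hG := num_G ht hc ha h1 h3 hl hla
  have e2 : t ≤ Real.exp (μ * t) := by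
    rw [← Real.log_le_iff_le_exp ht]
    exact h1
  have e3 : 16 * l * t / (3 * c ^ 2) * t < Real.exp (4 * (μ * t)) := by
    have e4 : 16 * l * t / (3 * c ^ 2) < 64 * l * t / c ^ 2 := by
      rw [div_lt_div_iff₀ (by positivity) (by positivity)]
      have : 0 < l * t * c ^ 2 := by positivity
      nlinarith
    calc 16 * l * t / (3 * c ^ 2) * t < 64 * l * t / c ^ 2 * t :=
          mul_lt_mul_of_pos_right e4 ht
      _ ≤ Real.exp (3 * (μ * t)) * Real.exp (μ * t) := by gcongr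
      _ = Real.exp (4 * (μ * t)) := by
          rw [← Real.exp_add]
          congr 1
          ring
  have e5 : Real.exp (η * (κ / 4) / 16 * t) * Real.exp (4 * (μ * t)) ≤
      Real.exp (η * (κ / 4) * t / 4) := by
    rw [← Real.exp_add]
    apply Real.exp_le_exp.2
    have h6 : μ * t ≤ (η * κ / 256) * t := mul_le_mul_of_nonneg_right hμ ht.le
    have h7 : 0 < η * κ * t := by positivity
    linarith
  have e6 : Real.exp (η * (κ / 4) / 16 * t) * (16 * l * t / (3 * c ^ 2) * t) <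
      Real.exp (η * (κ / 4) * t / 4) :=
    (mul_lt_mul_of_pos_left e3 (Real.exp_pos _)).trans_le e5
  have e7 : Real.exp (η * (κ / 4) / 16 * t) * (16 * l * t / (3 * c ^ 2)) < N := by
    refine lt_of_lt_of_le ?_ hN
    rw [lt_div_iff₀ ht]
    calc Real.exp (η * (κ / 4) / 16 * t) * (16 * l * t / (3 * c ^ 2)) * t =
          Real.exp (η * (κ / 4) / 16 * t) * (16 * l * t / (3 * c ^ 2) * t) := by ring
      _ < _ := e6
  calc Real.exp (η * (κ / 4) / 16 * t) =
        Real.exp (η * (κ / 4) / 16 * t) * (16 * l * t / (3 * c ^ 2)) *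
          (3 * c ^ 2 / (16 * l * t)) := by field_simp
    _ < N * (3 * c ^ 2 / (16 * l * t)) := mul_lt_mul_of_pos_right e7 (by positivity)

end Pool.Agent.Work.MP_2738db_nt_X.helper46
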