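import Pool.Agent.Work.MP_2738db_nt_X_helper46.DpqC
import Pool.Agent.Work.MP_2738db_nt_X_helper46.DpqD

/-!
# MP_2738db_nt, Theorem X, block DPQ (helper46)
-/

set_option autoImplicit false

namespace Pool.Agent.Work.MP_2738db_nt_X.helper46

open Finset Filter
open Pool.Agent.Work.MP_2738db_nt_U (PY)
open Pool.Agent.Work.MP_2738db_nt_Z (PR DQ KZ)
open Pool.Agent.Work.MP_2738db_nt_W (primes_dyadic)
open Pool.Agent.Work.MP_2738db_nt_Z.helper55.Dpr (mem_PY choose_ge dyadic count_one many a1 a2 a3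
  a6)

theorem b7 {j β t : ℝ} (ht : 9 ≤ t) (hβ : β ≤ 1 / 400) (h : 8 * j ≤ β * t) : j + 1 ≤ t := by
  have h1 : β * t ≤ (1 / 400) * t := mul_le_mul_of_nonneg_right hβ (by linarith)
  linarith

open Classical in
theorem stmt_Dpq (hS : Stmt_Sux) (hM : Stmt_Smq) : Stmt_Dpq := by
  obtain ⟨κ, c, C, hκ, hκ1, hc0, hc1, hC1, T1, hT1⟩ := hS
  intro η h0 h1
  set β : ℝ := κ / 4 with hβ
  have hβ0 : 0 < β := by positivity
  have hβ4 : β ≤ 1 / 400 := by linarith
  refine ⟨η * β / 16, by positivity, ?_⟩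
  obtain ⟨T2, hT2⟩ := hM η (κ / 16) h0 h1 (by positivity)
  obtain ⟨Y1, hY1⟩ := primes_dyadic
  obtain ⟨Y2, hY2⟩ := many h0
  set μ : ℝ := η * κ / 256 with hμ
  have hμ0 : 0 < μ := by positivity
  have hμκ : μ ≤ κ / 256 := by
    have : η * κ ≤ 1 * κ := mul_le_mul_of_nonneg_right h1.le hκ.le
    linarith
  obtain ⟨T3, hT3⟩ := large (C := C) h0 h1 hμ0 hc0 (by linarith)
  refine ⟨max (max T1 T2) (max T3 (max Y1 Y2)), ?_⟩
  intro t y ht hty hyt l hl hlt
  have htT1 : T1 ≤ t := ((le_max_left _ _).trans (le_max_left _ _)).trans ht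
  have htT2 : T2 ≤ t := ((le_max_right _ _).trans (le_max_left _ _)).trans ht
  have htT3 : T3 ≤ t := ((le_max_left _ _).trans (le_max_right _ _)).trans ht
  have htY1 : Y1 ≤ t :=
    (((le_max_left _ _).trans (le_max_right _ _)).trans (le_max_right _ _)).trans ht
  have htY2 : Y2 ≤ t :=
    (((le_max_right _ _).trans (le_max_right _ _)).trans (le_max_right _ _)).trans ht
  obtain ⟨hte, haμ, hlogμ, hlog2μ, hGμ, hCa, hCb⟩ := hT3 t htT3
  set a := t ^ (1 - η) with ha
  have ht9 : (9 : ℝ) ≤ t := by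
    have := Real.add_one_le_exp (8 : ℝ)
    linarith
  have ht0 : 0 < t := by linarith
  have hty' : t ≤ y := by
    refine le_trans ?_ hty
    nth_rewrite 1 [← Real.rpow_one t]
    exact Real.rpow_le_rpow_of_exponent_le (by linarith) (by linarith)
  have hy0 : 0 < y := by linarith
  have hy2 : 2 ≤ y := by linarith
  have hlogy : 8 ≤ Real.log y := by
    rw [Real.le_log_iff_exp_le hy0]
    linarith
  have hL : Real.log (2 * y) = Real.log 2 + Real.log y := Real.log_mul (by norm_num) hy0.ne'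
  have hlog2 : 0 < Real.log 2 := Real.log_pos (by norm_num)
  have hlog2' := Real.log_two_lt_d9
  have hLt : Real.log (2 * y) ≤ β * t / 8 := by
    rw [hL]
    have h2 : Real.log y ≤ 3 * Real.log t := by
      have h3 : Real.log (t ^ 3) = 3 * Real.log t := by
        rw [Real.log_pow]
        norm_num
      rw [← h3]
      exact Real.log_le_log hy0 hyt
    have h4 : μ * t ≤ (κ / 256) * t := mul_le_mul_of_nonneg_right hμκ ht0.le
    have h5 : β * t / 8 = (κ / 32) * t := by rw [hβ]; ring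
    rw [h5]
    have h6 : 0 < κ * t := by positivity
    linarith
  set L := Real.log (2 * y) with hLd
  have hL8 : 8 ≤ L := by linarith
  set j := ⌊β * t / L⌋₊ with hj
  have hj1 : (j : ℝ) ≤ β * t / L := Nat.floor_le (by positivity)
  have hj2 : β * t / L < j + 1 := Nat.lt_floor_add_one _
  have hjL : (j : ℝ) * L ≤ β * t := by
    rwa [le_div_iff₀ (by linarith)] at hj1
  have hjL2 : β * t < (j + 1) * L := by
    rwa [div_lt_iff₀ (by linarith)] at hj2
  have hj0 : (0 : ℝ) ≤ j := Nat.cast_nonneg j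
  have hj8 : 8 * (j : ℝ) ≤ β * t := a6 hj0 hL8 hjL
  have hjt : (j : ℝ) + 1 ≤ t := b7 ht9 hβ4 hj8
  -- the excluded primes
  obtain ⟨e, f, he1, hf0, hf1, hef, hSux⟩ := hT1 t htT1
  obtain ⟨X, fs, hX1, hfs0, hfs1, hX2⟩ := density (y := y) hy2 hl ht0 hc0 hc1 (by linarith) he1
    hf0 hf1 hef hSux
  set P := PY y \ X with hP
  have hPm : ∀ r ∈ P, r.Prime ∧ y < r ∧ (r : ℝ) ≤ 2 * y := fun r hr =>
    mem_PY hy0.le (mem_sdiff.1 hr).1
  have hPc : 2 * y ^ (1 - η / 6) ≤ (P.card : ℝ) := by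
    have h2 := hY1 y (by linarith)
    have h3 := hY2 y (by linarith)
    have h4 : (PY y).card ≤ P.card + 2 := by
      have h5 := le_card_sdiff X (PY y)
      rw [hP]
      omega
    have h5 : ((PY y).card : ℝ) ≤ P.card + 2 := by exact_mod_cast h4
    have h6 : y / (8 * Real.log y) ≤ ((PY y).card : ℝ) := h2
    linarith
  -- the number of products
  have hy1 : (1 : ℝ) ≤ y := by linarith
  set w := y ^ (η / 3) with hw
  have hw1 : 1 ≤ w := Real.one_le_rpow hy1 (by positivity)
  have hchoose : w ^ j ≤ (P.card.choose j : ℝ) := by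
    apply choose_ge (by linarith)
    have h2 : t ≤ y ^ (1 - η / 2) := by
      have h3 : (t ^ (1 + η)) ^ (1 - η / 2) ≤ y ^ (1 - η / 2) :=
        Real.rpow_le_rpow (by positivity) hty (by linarith)
      rw [← Real.rpow_mul ht0.le] at h3
      refine le_trans ?_ h3
      nth_rewrite 1 [← Real.rpow_one t]
      exact Real.rpow_le_rpow_of_exponent_le (by linarith) (a1 h0 h1.le)
    have h3 : y ^ (1 - η / 2) * w = y ^ (1 - η / 6) := by
      rw [hw, ← Real.rpow_add hy0]
      congr 1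
      ring
    calc (j : ℝ) * (1 + w) ≤ t * (2 * w) := by
          apply mul_le_mul (by linarith) (by linarith) (by linarith) ht0.le
      _ ≤ y ^ (1 - η / 2) * (2 * w) := by gcongr
      _ = 2 * y ^ (1 - η / 6) := by rw [← h3]; ring
      _ ≤ P.card := hPc
      _ ≤ P.card + 1 := by linarith
  have hwj : Real.exp (η * β * t / 4) ≤ w ^ j := by
    have h2 : w ^ j = Real.exp (η / 3 * (j * Real.log y)) := by
      rw [hw, Real.rpow_def_of_pos hy0, ← Real.exp_nat_mul]
      congr 1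
      ring
    rw [h2]
    apply Real.exp_le_exp.2
    have h3 : (3 / 4) * (β * t) ≤ j * Real.log y := by
      have h4 : (j : ℝ) * Real.log y = j * L - j * Real.log 2 := by rw [hL]; ring
      rw [h4]
      have h5 : (j : ℝ) * Real.log 2 ≤ β * t / 8 := a2 hj0 (by linarith) hj8
      have h6 : ((j : ℝ) + 1) * L = j * L + L := by ring
      linarith
    have h4 : η / 3 * ((3 / 4) * (β * t)) ≤ η / 3 * (j * Real.log y) :=
      mul_le_mul_of_nonneg_left h3 (by positivity)
    linarith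
  set D1 := (P.powersetCard j).image (fun s => ∏ r ∈ s, r) with hD1
  have hD1c : D1.card = P.card.choose j := by
    rw [hD1, card_image_of_injOn, card_powersetCard]
    intro s hs s' hs' heq
    have hs2 := (mem_powersetCard.1 hs).1
    have hs2' := (mem_powersetCard.1 hs').1
    have heq' : ∏ r ∈ s, r = ∏ r ∈ s', r := heq
    have h4 : (∏ r ∈ s, r).primeFactors = s :=
      Nat.primeFactors_prod fun p hp => (hPm p (hs2 hp)).1
    have h5 : (∏ r ∈ s', r).primeFactors = s' :=
      Nat.primeFactors_prod fun p hp => (hPm p (hs2' hp)).1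
    rw [← h4, ← h5, heq']
  have hD1m : ∀ d ∈ D1, y ^ j ≤ d ∧ (d : ℝ) ≤ y ^ j * 2 ^ j := by
    intro d hd
    obtain ⟨s, hs, rfl⟩ := mem_image.1 hd
    obtain ⟨hs1, hs2⟩ := mem_powersetCard.1 hs
    push_cast
    constructor
    · calc y ^ j = ∏ _r ∈ s, y := by rw [prod_const, hs2]
        _ ≤ ∏ r ∈ s, (r : ℝ) :=
            prod_le_prod (fun _ _ => hy0.le) fun r hr => (hPm r (hs1 hr)).2.1.le
    · calc ∏ r ∈ s, (r : ℝ) ≤ ∏ _r ∈ s, (2 * y) :=
            prod_le_prod (fun _ _ => Nat.cast_nonneg _) fun r hr => (hPm r (hs1 hr)).2.2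
        _ = y ^ j * 2 ^ j := by rw [prod_const, hs2, mul_pow]; ring
  obtain ⟨i, hi, hDi⟩ := dyadic (B := y ^ j) (by positivity) j D1 hD1m
  set D₀ : ℝ := y ^ j * 2 ^ i with hD0d
  set D := D1.filter (fun d : ℕ => y ^ j * 2 ^ i ≤ (d : ℝ) ∧ (d : ℝ) ≤ 2 * (y ^ j * 2 ^ i)) with hD
  have hyj1 : (1 : ℝ) ≤ y ^ j := one_le_pow₀ hy1
  have h2i1 : (1 : ℝ) ≤ 2 ^ i := one_le_pow₀ (by norm_num)
  have hD01 : (1 : ℝ) ≤ D₀ := a3 hyj1 h2i1
  have hexp : y ^ j * 2 ^ j ≤ Real.exp (β * t) := by
    rw [← mul_pow, ← Real.log_le_iff_le_exp (by positivity), Real.log_pow, mul_comm y 2]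
    exact hjL
  have hij : (2 : ℝ) ^ i ≤ 2 ^ j := by
    apply pow_le_pow_right₀ (by norm_num)
    rw [mem_range] at hi
    omega
  have hD0exp : D₀ ≤ Real.exp (β * t) := by
    calc y ^ j * 2 ^ i ≤ y ^ j * 2 ^ j := by gcongr
      _ ≤ Real.exp (β * t) := hexp
  refine ⟨D, D₀, hD01, ?_, ?_, ?_⟩
  · refine hD0exp.trans (Real.exp_le_exp.2 ?_)
    have h3 : β * t ≤ (1 / 400) * t := mul_le_mul_of_nonneg_right hβ4 ht0.le
    linarith
  · intro d hd
    rw [hD, mem_filter] at hd
    refine ⟨hd.2.1, hd.2.2, ?_⟩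
    obtain ⟨s, hs, rfl⟩ := mem_image.1 hd.1
    apply prod_dvd_prod_of_subset
    exact (mem_powersetCard.1 hs).1.trans sdiff_subset
  intro k hk hkω
  have hl0 : (0 : ℝ) < l := by exact_mod_cast hl.pos
  set K := KZ t D₀ l with hK
  have hKe : K = Real.exp t / (2 * l * D₀) := rfl
  have hK9 : Real.exp ((9 / 10) * t) ≤ K := by
    rw [hKe]
    exact num_K ht0 hκ1 hμκ haμ hlog2μ hl0 hlt hD01 hD0exp
  have hK0 : 0 < K := (Real.exp_pos _).trans_le hK9
  have hG := num_G ht0 hc0 haμ hlogμ hGμ hl0 hlt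
  have hn0 := num_0 ht0 hκ1 hμκ hc0 hl0 hK9 hG
  have hn2 := num_2 ht0 hκ hμκ haμ hc0 hl0 hK0 hG
  have hSK := num_S ht0 hκ1 hK9
  set v0 := c * K / (4 * l * t) with hv0
  have hv00 : 0 < v0 := by positivity
  have hz1 : 1 < Real.exp (2 * a) := by
    rw [Real.one_lt_exp_iff]
    have : 0 < a := by positivity
    linarith
  have hS1 : 1 ≤ Real.exp (κ * t / 8) := by
    rw [Real.one_le_exp_iff]
    positivity
  have hsmooth : ∑ s ∈ SF (Real.exp (2 * a)) (Real.exp (κ * t / 8)), 1 / (s.totient : ℝ) ≤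
      Real.exp (-(t ^ (η / 2))) := by
    apply hT2 t htT2
    intro s hs
    rw [mem_SF (by linarith)] at hs
    refine ⟨hs.1, ?_, hs.2.2.2⟩
    refine le_trans ?_ hs.2.2.1.le
    rw [← Real.exp_sub]
    apply Real.exp_le_exp.2
    have h4 : μ * t ≤ (κ / 256) * t := mul_le_mul_of_nonneg_right hμκ ht0.le
    have h6 : 0 < κ * t := by positivity
    linarith
  have hDm : ∀ d ∈ D, 0 < d ∧ D₀ ≤ (d : ℝ) := by
    intro d hd
    rw [hD, mem_filter] at hd
    refine ⟨?_, hd.2.1⟩
    have : (1 : ℝ) ≤ d := hD01.trans hd.2.1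
    have h2 : 1 ≤ d := by exact_mod_cast this
    omega
  -- every `d` has many good `k₀`
  have hgood : ∀ d ∈ D, c * v0 * (3 / 4) ≤
      (((QK t K (2 * l * d)).filter (Good K k)).card : ℝ) := by
    intro d hd
    have hd' := hd
    rw [hD, mem_filter] at hd'
    obtain ⟨hdD1, hd2, hd3⟩ := hd'
    obtain ⟨hdpos, hdD0⟩ := hDm d hd
    have hd0 : (0 : ℝ) < d := by exact_mod_cast hdpos
    have hdexp : (d : ℝ) ≤ Real.exp (κ / 4 * t) := (hD1m d hdD1).2.trans hexp
    have hm1 : 1 ≤ 2 * l * d := Nat.mul_pos (Nat.mul_pos (by norm_num) hl.pos) hdpos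
    set m := 2 * l * d with hm
    have hmφ : (0 : ℝ) < (m.totient : ℝ) := by exact_mod_cast Nat.totient_pos.2 (by omega)
    have hmφ2 : (m.totient : ℝ) ≤ 2 * l * d := by
      have := Nat.totient_le m
      rw [hm] at this ⊢
      exact_mod_cast this
    obtain ⟨s0, hs0, hs0d⟩ := mem_image.1 hdD1
    have hs0P : s0 ⊆ PY y \ X := (mem_powersetCard.1 hs0).1
    have hX3 := hX2 s0 hs0P m (by rw [hm, ← hs0d])
    set W := fs * (Real.exp t / (m.totient * t)) with hW
    have hW0 : 0 < W := by positivity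
    have hlow : c * W ≤ ((QK t K m).card : ℝ) := by
      refine (hX3.1 ?_).trans ?_
      · have h3 := num_m (s := 1) ht0 hκ hμκ haμ hlog2μ hl0 hlt hd0.le hdexp zero_le_one hS1
        rw [hm]
        push_cast
        linarith
      · have h3 := count_one (t := t) (D₀ := D₀) hl.pos hdpos (by linarith) hdD0
        exact_mod_cast h3
    have hup : ∀ s : ℕ, 1 ≤ s → (s : ℝ) ≤ Real.exp (κ * t / 8) →
        ((PR t (m * s)).card : ℝ) ≤ C * W / (s.totient : ℝ) := by
      intro s hs hsS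
      have hsφ : (0 : ℝ) < (s.totient : ℝ) := by exact_mod_cast Nat.totient_pos.2 (by omega)
      refine (hX3.2 s hs ?_).trans ?_
      · have h3 := num_m (s := s) ht0 hκ hμκ haμ hlog2μ hl0 hlt hd0.le hdexp
          (Nat.cast_nonneg s) hsS
        rw [hm]
        push_cast
        exact h3
      · rw [mul_div_assoc]
        apply mul_le_mul_of_nonneg_left _ (by linarith)
        rw [hW, mul_div_assoc]
        apply mul_le_mul_of_nonneg_left _ hfs0.le
        rw [div_div]
        apply div_le_div_of_nonneg_left (Real.exp_pos t).le (by positivity)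
        have h3 : (m.totient * s.totient : ℕ) ≤ (m * s).totient :=
          Nat.totient_super_multiplicative m s
        have h4 : (m.totient : ℝ) * s.totient ≤ ((m * s).totient : ℝ) := by exact_mod_cast h3
        calc (m.totient : ℝ) * t * s.totient = (m.totient : ℝ) * s.totient * t := by ring
          _ ≤ _ := mul_le_mul_of_nonneg_right h4 ht0.le
    have hWv : v0 ≤ W := by
      calc v0 = c / (2 * l) * (Real.exp t / (2 * l * (2 * D₀) * t)) := by
            rw [hv0, hKe]
            field_simp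
            ring
        _ ≤ fs * (Real.exp t / (m.totient * t)) := by
            apply mul_le_mul hfs1 _ (by positivity) hfs0.le
            apply div_le_div_of_nonneg_left (Real.exp_pos t).le (by positivity)
            apply mul_le_mul_of_nonneg_right _ ht0.le
            refine hmφ2.trans ?_
            exact mul_le_mul_of_nonneg_left hd3 (by positivity)
    have hcv : c * v0 ≤ c * W := mul_le_mul_of_nonneg_left hWv hc0.le
    have hg := good_ge (t := t) (K := K) (z := Real.exp (2 * a)) (S := Real.exp (κ * t / 8))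
      (c := c) (C := C) (w := W) (Om := Real.exp a) (δ := Real.exp (-(t ^ (η / 2)))) (m := m)
      (k := k) hm1 hK0.le hk hz1 hS1 hSK (by linarith) hW0.le hlow hup hkω hsmooth
      (by linarith) (num_1 hc0 hc1 hC1 hW0.le hCa) (by linarith) (num_3 hc0 hC1 hW0.le hCb)
    linarith
  -- the number of `d`
  have hDc : Real.exp (η * (κ / 4) * t / 4) / t ≤ (D.card : ℝ) := by
    calc Real.exp (η * (κ / 4) * t / 4) / t ≤ (D1.card : ℝ) / t := by
          rw [hD1c]
          gcongr
          exact hwj.trans hchoose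
      _ ≤ (D1.card : ℝ) / (j + 1) := by
          apply div_le_div_of_nonneg_left (Nat.cast_nonneg _) (by positivity) hjt
      _ ≤ _ := hDi
  have hF := num_F ht0 h0 hκ (le_of_eq hμ) hc0 haμ hlogμ hGμ hl0 hlt hDc
  obtain ⟨k₀, q1, q2, q3, q4⟩ := pigeon (t := t) (D₀ := D₀) (k := k) hl.pos (by linarith) D hgood
    (Real.exp (η * β / 16 * t)) (Real.exp_pos _).le (by
      have e1 : (D.card : ℝ) * (c * v0 * (3 / 4)) =
          K * ((D.card : ℝ) * (3 * c ^ 2 / (16 * l * t))) := by
        rw [hv0]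
        field_simp
        ring
      rw [e1]
      exact mul_lt_mul_of_pos_left hF hK0)
  exact ⟨k₀, q1, q2, q3.1, q3.2, q4⟩

end Pool.Agent.Work.MP_2738db_nt_X.helper46
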