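import Pool.Agent.Work.MP_2738db_nt_X.Interface
import Pool.Agent.Work.MP_2738db_nt_Z_helper55.DPR

/-!
# MP_2738db_nt, Theorem X, block DPQ, part 1: the numbers `k₀` with a large common factor with `k`
(helper46)
-/

set_option autoImplicit false

namespace Pool.Agent.Work.MP_2738db_nt_X.helper46

open Finset
open Pool.Agent.Work.MP_2738db_nt_U (PY)
open Pool.Agent.Work.MP_2738db_nt_Z (PR DQ KZ)

/-- the `k₀ ≤ K` with a sieving prime `1 + m k₀` -/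
noncomputable def QK (t K : ℝ) (m : ℕ) : Finset ℕ :=
  (Icc 1 ⌊K⌋₊).filter (fun k => (1 + m * k).Prime ∧ ((1 + m * k : ℕ) : ℝ) ≤ Real.exp t)

/-- multiples of `s` in `QK` are primes `1` modulo `m s` -/
theorem card_dvd_le {t K : ℝ} {m s : ℕ} (hm : 0 < m) :
    ((QK t K m).filter (fun k => s ∣ k)).card ≤ (PR t (m * s)).card := by
  apply card_le_card_of_injOn (fun k => 1 + m * k)
  · intro k hk
    rw [mem_coe, mem_filter, QK, mem_filter] at hk
    obtain ⟨⟨_, hp, hle⟩, hs⟩ := hk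
    show 1 + m * k ∈ _
    rw [mem_coe, PR, mem_filter, mem_range, Nat.lt_succ_iff]
    refine ⟨Nat.le_floor hle, hp, ?_⟩
    obtain ⟨u, rfl⟩ := hs
    rw [← mul_assoc]
    exact Nat.add_mul_mod_self_left 1 (m * s) u
  · intro a _ b _ h
    have h1 : 1 + m * a = 1 + m * b := h
    have h2 : m * a = m * b := by omega
    exact Nat.eq_of_mul_eq_mul_left hm h2

/-- multiples of `p` up to `K` -/
theorem card_mult_le {K : ℝ} (hK : 0 ≤ K) {p : ℕ} (hp : 0 < p) :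
    (((Icc 1 ⌊K⌋₊).filter (fun k => p ∣ k)).card : ℝ) ≤ K / p := by
  have h1 : (Icc 1 ⌊K⌋₊).filter (fun k => p ∣ k) = (Ioc 0 ⌊K⌋₊).filter (fun k => p ∣ k) := by
    ext x
    simp only [mem_filter, mem_Icc, mem_Ioc]
    constructor
    · rintro ⟨⟨a, b⟩, c⟩
      exact ⟨⟨by omega, b⟩, c⟩
    · rintro ⟨⟨a, b⟩, c⟩
      exact ⟨⟨by omega, b⟩, c⟩
  rw [h1, Nat.Ioc_filter_dvd_card_eq_div]
  have hp' : (0 : ℝ) < p := by exact_mod_cast hp
  rw [le_div_iff₀ hp']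
  calc ((⌊K⌋₊ / p : ℕ) : ℝ) * p = ((⌊K⌋₊ / p * p : ℕ) : ℝ) := by push_cast; ring
    _ ≤ (⌊K⌋₊ : ℝ) := by exact_mod_cast Nat.div_mul_le_self _ _
    _ ≤ K := Nat.floor_le hK

/-- a smooth number has a divisor in `(S / z, S]` -/
theorem smooth_divisor {z S : ℝ} (hz : 1 ≤ z) (hS : 1 ≤ S) : ∀ g : ℕ, 0 < g → S < (g : ℝ) →
    (∀ p : ℕ, p.Prime → p ∣ g → (p : ℝ) ≤ z) → ∃ s : ℕ, s ∣ g ∧ 0 < s ∧ S / z < s ∧ (s : ℝ) ≤ S := by
  intro g
  induction g using Nat.strong_induction_on with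
  | _ g ih =>
    intro hg hgS hsm
    have hg1 : g ≠ 1 := by
      rintro rfl
      push_cast at hgS
      linarith
    have hp := Nat.minFac_prime hg1
    set p := g.minFac with hpd
    have hpg : p ∣ g := Nat.minFac_dvd g
    obtain ⟨g', hg'⟩ := hpg
    have hp0 : (0 : ℝ) < p := by exact_mod_cast hp.pos
    have hg'0 : 0 < g' := by
      rcases Nat.eq_zero_or_pos g' with h | h
      · rw [h, mul_zero] at hg'
        omega
      · exact h
    have hpz : (p : ℝ) ≤ z := hsm p hp ⟨g', hg'⟩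
    have hdv : g' ∣ g := ⟨p, by rw [hg', mul_comm]⟩
    have hgr : (g : ℝ) = p * g' := by rw [hg']; push_cast; ring
    by_cases h : (g' : ℝ) ≤ S
    · refine ⟨g', hdv, hg'0, ?_, h⟩
      rw [div_lt_iff₀ (by linarith)]
      have h1 : (0 : ℝ) < g' := by exact_mod_cast hg'0
      calc S < g := hgS
        _ = p * g' := hgr
        _ ≤ z * g' := mul_le_mul_of_nonneg_right hpz h1.le
        _ = g' * z := mul_comm _ _
    · push Not at h
      have hlt : g' < g := by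
        rw [hg']
        have := hp.two_le
        nlinarith
      obtain ⟨s, hs1, hs2, hs3, hs4⟩ := ih g' hlt hg'0 h
        (fun q hq hqg => hsm q hq (hqg.trans hdv))
      exact ⟨s, hs1.trans hdv, hs2, hs3, hs4⟩

/-- the good `k₀` -/
def Good (K : ℝ) (k k₀ : ℕ) : Prop :=
  (Nat.gcd k k₀ : ℝ) ≤ K ^ (3 / 10 : ℝ) ∧ K ^ (9 / 10 : ℝ) ≤ (k₀ : ℝ)

/-- the smooth numbers in `(S / z, S]` -/
noncomputable def SF (z S : ℝ) : Finset ℕ := by
  classical
  exact (Icc 1 ⌊S⌋₊).filter (fun s => S / z < s ∧ ∀ p : ℕ, p.Prime → p ∣ s → (p : ℝ) ≤ z)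

theorem mem_SF {z S : ℝ} (hS : 0 ≤ S) {s : ℕ} : s ∈ SF z S ↔
    0 < s ∧ (s : ℝ) ≤ S ∧ S / z < s ∧ ∀ p : ℕ, p.Prime → p ∣ s → (p : ℝ) ≤ z := by
  classical
  unfold SF
  rw [mem_filter, mem_Icc, Nat.le_floor_iff hS]
  constructor
  · rintro ⟨⟨a, b⟩, c, d⟩
    exact ⟨a, b, c, d⟩
  · rintro ⟨a, b, c, d⟩
    exact ⟨⟨a, b⟩, c, d⟩

end Pool.Agent.Work.MP_2738db_nt_X.helper46
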