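import Pool.Agent.Work.MP_2738db_nt_X_helper46.DpqA

/-!
# MP_2738db_nt, Theorem X, block DPQ, part 2: counting the bad `k₀`, and the pigeonhole (helper46)
-/

set_option autoImplicit false

namespace Pool.Agent.Work.MP_2738db_nt_X.helper46

open Finset
open Pool.Agent.Work.MP_2738db_nt_U (PY)
open Pool.Agent.Work.MP_2738db_nt_Z (PR DQ KZ)

theorem cover_mem {t K z S : ℝ} {m k x : ℕ} (hK : 0 ≤ K) (hk : 1 ≤ k) (hz : 1 ≤ z) (hS : 1 ≤ S)
    (hKS : S ≤ K ^ (3 / 10 : ℝ)) (hx : x ∈ QK t K m) :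
    Good K k x ∨ x ∈ Icc 1 ⌊K ^ (9 / 10 : ℝ)⌋₊ ∨
      (∃ p ∈ k.primeFactors, z < (p : ℝ) ∧ (p : ℝ) ≤ S ∧ p ∣ x) ∨
      (∃ p ∈ k.primeFactors, S < (p : ℝ) ∧ p ∣ x) ∨
      (∃ s ∈ SF z S, s ∣ x) := by
  have hx0 := hx
  rw [QK, mem_filter, mem_Icc] at hx0
  obtain ⟨⟨hx1, hx2⟩, _⟩ := hx0
  by_cases hg : Good K k x
  · exact Or.inl hg
  right
  by_cases h9 : K ^ (9 / 10 : ℝ) ≤ (x : ℝ)
  swap
  · left
    rw [mem_Icc]
    refine ⟨hx1, Nat.le_floor ?_⟩
    linarith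
  right
  have hgcd : K ^ (3 / 10 : ℝ) < (Nat.gcd k x : ℝ) := by
    by_contra hc
    exact hg ⟨not_lt.1 hc, h9⟩
  by_cases hp : ∃ p ∈ k.primeFactors, z < (p : ℝ) ∧ p ∣ x
  · obtain ⟨p, hp1, hp2, hp3⟩ := hp
    by_cases h : (p : ℝ) ≤ S
    · exact Or.inl ⟨p, hp1, hp2, h, hp3⟩
    · exact Or.inr (Or.inl ⟨p, hp1, not_le.1 h, hp3⟩)
  right
  right
  have hg0 : 0 < Nat.gcd k x := Nat.gcd_pos_of_pos_left _ hk
  obtain ⟨s, hs1, hs2, hs3, hs4⟩ := smooth_divisor hz hS (Nat.gcd k x) hg0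
    (lt_of_le_of_lt hKS hgcd) (by
      intro p hpp hpd
      by_contra hc
      apply hp
      refine ⟨p, ?_, not_le.1 hc, hpd.trans (Nat.gcd_dvd_right _ _)⟩
      rw [Nat.mem_primeFactors]
      exact ⟨hpp, hpd.trans (Nat.gcd_dvd_left _ _), by omega⟩)
  refine ⟨s, ?_, hs1.trans (Nat.gcd_dvd_right _ _)⟩
  rw [mem_SF (by linarith)]
  refine ⟨hs2, hs4, hs3, ?_⟩
  intro p hpp hps
  by_contra hc
  apply hp
  have hpd : p ∣ Nat.gcd k x := hps.trans hs1
  refine ⟨p, ?_, not_le.1 hc, hpd.trans (Nat.gcd_dvd_right _ _)⟩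
  rw [Nat.mem_primeFactors]
  exact ⟨hpp, hpd.trans (Nat.gcd_dvd_left _ _), by omega⟩

open Classical in
theorem cover_card {t K z S : ℝ} {m k : ℕ} (hK : 0 ≤ K) (hk : 1 ≤ k) (hz : 1 ≤ z) (hS : 1 ≤ S)
    (hKS : S ≤ K ^ (3 / 10 : ℝ)) :
    ((QK t K m).card : ℝ) ≤ (((QK t K m).filter (Good K k)).card : ℝ) + K ^ (9 / 10 : ℝ) +
      ∑ p ∈ k.primeFactors.filter (fun p : ℕ => z < (p : ℝ) ∧ (p : ℝ) ≤ S),
        (((QK t K m).filter (fun x => p ∣ x)).card : ℝ) +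
      ∑ p ∈ k.primeFactors.filter (fun p : ℕ => S < (p : ℝ)),
        (((Icc 1 ⌊K⌋₊).filter (fun x => p ∣ x)).card : ℝ) +
      ∑ s ∈ SF z S, (((QK t K m).filter (fun x => s ∣ x)).card : ℝ) := by
  have hsub : QK t K m ⊆ (QK t K m).filter (Good K k) ∪ (Icc 1 ⌊K ^ (9 / 10 : ℝ)⌋₊ ∪
      ((k.primeFactors.filter (fun p : ℕ => z < (p : ℝ) ∧ (p : ℝ) ≤ S)).biUnion
        (fun p => (QK t K m).filter (fun x => p ∣ x)) ∪
      ((k.primeFactors.filter (fun p : ℕ => S < (p : ℝ))).biUnion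
        (fun p => (Icc 1 ⌊K⌋₊).filter (fun x => p ∣ x)) ∪
      (SF z S).biUnion (fun s => (QK t K m).filter (fun x => s ∣ x))))) := by
    intro x hx
    rw [mem_union, mem_union, mem_union, mem_union, mem_filter, mem_biUnion, mem_biUnion,
      mem_biUnion]
    rcases cover_mem hK hk hz hS hKS hx with h | h | ⟨p, h1, h2, h3, h4⟩ | ⟨p, h1, h2, h3⟩ |
      ⟨s, h1, h2⟩
    · exact Or.inl ⟨hx, h⟩
    · exact Or.inr (Or.inl h)
    · exact Or.inr (Or.inr (Or.inl ⟨p, mem_filter.2 ⟨h1, h2, h3⟩, mem_filter.2 ⟨hx, h4⟩⟩))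
    · refine Or.inr (Or.inr (Or.inr (Or.inl ⟨p, mem_filter.2 ⟨h1, h2⟩, mem_filter.2 ⟨?_, h3⟩⟩)))
      rw [QK, mem_filter] at hx
      exact hx.1
    · exact Or.inr (Or.inr (Or.inr (Or.inr ⟨s, h1, mem_filter.2 ⟨hx, h2⟩⟩)))
  have h1 := card_le_card hsub
  have h2 := card_union_le ((QK t K m).filter (Good K k)) (Icc 1 ⌊K ^ (9 / 10 : ℝ)⌋₊ ∪
      ((k.primeFactors.filter (fun p : ℕ => z < (p : ℝ) ∧ (p : ℝ) ≤ S)).biUnion
        (fun p => (QK t K m).filter (fun x => p ∣ x)) ∪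
      ((k.primeFactors.filter (fun p : ℕ => S < (p : ℝ))).biUnion
        (fun p => (Icc 1 ⌊K⌋₊).filter (fun x => p ∣ x)) ∪
      (SF z S).biUnion (fun s => (QK t K m).filter (fun x => s ∣ x)))))
  have h3 := card_union_le (Icc 1 ⌊K ^ (9 / 10 : ℝ)⌋₊)
      ((k.primeFactors.filter (fun p : ℕ => z < (p : ℝ) ∧ (p : ℝ) ≤ S)).biUnion
        (fun p => (QK t K m).filter (fun x => p ∣ x)) ∪
      ((k.primeFactors.filter (fun p : ℕ => S < (p : ℝ))).biUnion
        (fun p => (Icc 1 ⌊K⌋₊).filter (fun x => p ∣ x)) ∪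
      (SF z S).biUnion (fun s => (QK t K m).filter (fun x => s ∣ x))))
  have h4 := card_union_le
      ((k.primeFactors.filter (fun p : ℕ => z < (p : ℝ) ∧ (p : ℝ) ≤ S)).biUnion
        (fun p => (QK t K m).filter (fun x => p ∣ x)))
      ((k.primeFactors.filter (fun p : ℕ => S < (p : ℝ))).biUnion
        (fun p => (Icc 1 ⌊K⌋₊).filter (fun x => p ∣ x)) ∪
      (SF z S).biUnion (fun s => (QK t K m).filter (fun x => s ∣ x)))
  have h5 := card_union_le
      ((k.primeFactors.filter (fun p : ℕ => S < (p : ℝ))).biUnion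
        (fun p => (Icc 1 ⌊K⌋₊).filter (fun x => p ∣ x)))
      ((SF z S).biUnion (fun s => (QK t K m).filter (fun x => s ∣ x)))
  have h6 : ((k.primeFactors.filter (fun p : ℕ => z < (p : ℝ) ∧ (p : ℝ) ≤ S)).biUnion
        (fun p => (QK t K m).filter (fun x => p ∣ x))).card ≤
      ∑ p ∈ k.primeFactors.filter (fun p : ℕ => z < (p : ℝ) ∧ (p : ℝ) ≤ S),
        ((QK t K m).filter (fun x => p ∣ x)).card := card_biUnion_le
  have h7 : ((k.primeFactors.filter (fun p : ℕ => S < (p : ℝ))).biUnion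
        (fun p => (Icc 1 ⌊K⌋₊).filter (fun x => p ∣ x))).card ≤
      ∑ p ∈ k.primeFactors.filter (fun p : ℕ => S < (p : ℝ)),
        ((Icc 1 ⌊K⌋₊).filter (fun x => p ∣ x)).card := card_biUnion_le
  have h8 : ((SF z S).biUnion (fun s => (QK t K m).filter (fun x => s ∣ x))).card ≤
      ∑ s ∈ SF z S, ((QK t K m).filter (fun x => s ∣ x)).card := card_biUnion_le
  have h9 : (((Icc 1 ⌊K ^ (9 / 10 : ℝ)⌋₊).card : ℕ) : ℝ) ≤ K ^ (9 / 10 : ℝ) := by
    rw [Nat.card_Icc, Nat.add_sub_cancel]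
    exact Nat.floor_le (by positivity)
  have h10 : (QK t K m).card ≤ ((QK t K m).filter (Good K k)).card +
      (Icc 1 ⌊K ^ (9 / 10 : ℝ)⌋₊).card +
      ∑ p ∈ k.primeFactors.filter (fun p : ℕ => z < (p : ℝ) ∧ (p : ℝ) ≤ S),
        ((QK t K m).filter (fun x => p ∣ x)).card +
      ∑ p ∈ k.primeFactors.filter (fun p : ℕ => S < (p : ℝ)),
        ((Icc 1 ⌊K⌋₊).filter (fun x => p ∣ x)).card +
      ∑ s ∈ SF z S, ((QK t K m).filter (fun x => s ∣ x)).card := by omega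
  have h11 : ((QK t K m).card : ℝ) ≤ ((QK t K m).filter (Good K k)).card +
      ((Icc 1 ⌊K ^ (9 / 10 : ℝ)⌋₊).card : ℝ) +
      ∑ p ∈ k.primeFactors.filter (fun p : ℕ => z < (p : ℝ) ∧ (p : ℝ) ≤ S),
        (((QK t K m).filter (fun x => p ∣ x)).card : ℝ) +
      ∑ p ∈ k.primeFactors.filter (fun p : ℕ => S < (p : ℝ)),
        (((Icc 1 ⌊K⌋₊).filter (fun x => p ∣ x)).card : ℝ) +
      ∑ s ∈ SF z S, (((QK t K m).filter (fun x => s ∣ x)).card : ℝ) := by exact_mod_cast h10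
  linarith

open Classical in
/-- most of the sieving primes have a good `k₀` -/
theorem good_ge {t K z S c C w Om δ : ℝ} {m k : ℕ} (hm : 0 < m) (hK : 0 ≤ K) (hk : 1 ≤ k)
    (hz : 1 < z) (hS : 1 ≤ S) (hKS : S ≤ K ^ (3 / 10 : ℝ)) (hC : 0 ≤ C) (hw : 0 ≤ w)
    (hlow : c * w ≤ ((QK t K m).card : ℝ))
    (hup : ∀ s : ℕ, 1 ≤ s → (s : ℝ) ≤ S → ((PR t (m * s)).card : ℝ) ≤ C * w / (s.totient : ℝ))
    (hOm : (k.primeFactors.card : ℝ) ≤ Om)
    (hSF : ∑ s ∈ SF z S, 1 / (s.totient : ℝ) ≤ δ)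
    (h0 : K ^ (9 / 10 : ℝ) ≤ c * w / 16) (h1 : Om * (C * w / (z - 1)) ≤ c * w / 16)
    (h2 : Om * (K / S) ≤ c * w / 16) (h3 : C * w * δ ≤ c * w / 16) :
    c * w * (3 / 4) ≤ (((QK t K m).filter (Good K k)).card : ℝ) := by
  have hcov := cover_card (t := t) (m := m) hK hk hz.le hS hKS
  have b1 : ∑ p ∈ k.primeFactors.filter (fun p : ℕ => z < (p : ℝ) ∧ (p : ℝ) ≤ S),
        (((QK t K m).filter (fun x => p ∣ x)).card : ℝ) ≤ Om * (C * w / (z - 1)) := by
    calc ∑ p ∈ k.primeFactors.filter (fun p : ℕ => z < (p : ℝ) ∧ (p : ℝ) ≤ S),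
        (((QK t K m).filter (fun x => p ∣ x)).card : ℝ)
        ≤ ∑ _p ∈ k.primeFactors.filter (fun p : ℕ => z < (p : ℝ) ∧ (p : ℝ) ≤ S),
          C * w / (z - 1) := by
          apply sum_le_sum
          intro p hp
          obtain ⟨hp1, hp2, hp3⟩ := mem_filter.1 hp
          have hpp := Nat.prime_of_mem_primeFactors hp1
          have e1 : (((QK t K m).filter (fun x => p ∣ x)).card : ℝ) ≤
              ((PR t (m * p)).card : ℝ) := by exact_mod_cast card_dvd_le hm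
          refine e1.trans ((hup p hpp.one_lt.le hp3).trans ?_)
          rw [Nat.totient_prime hpp, Nat.cast_sub hpp.one_lt.le, Nat.cast_one]
          apply div_le_div_of_nonneg_left (mul_nonneg hC hw) (by linarith)
          linarith
      _ = ((k.primeFactors.filter (fun p : ℕ => z < (p : ℝ) ∧ (p : ℝ) ≤ S)).card : ℝ) *
          (C * w / (z - 1)) := by rw [sum_const, nsmul_eq_mul]
      _ ≤ Om * (C * w / (z - 1)) := by
          apply mul_le_mul_of_nonneg_right _ (div_nonneg (mul_nonneg hC hw) (by linarith))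
          refine le_trans ?_ hOm
          exact_mod_cast card_filter_le _ _
  have b2 : ∑ p ∈ k.primeFactors.filter (fun p : ℕ => S < (p : ℝ)),
        (((Icc 1 ⌊K⌋₊).filter (fun x => p ∣ x)).card : ℝ) ≤ Om * (K / S) := by
    calc ∑ p ∈ k.primeFactors.filter (fun p : ℕ => S < (p : ℝ)),
        (((Icc 1 ⌊K⌋₊).filter (fun x => p ∣ x)).card : ℝ)
        ≤ ∑ _p ∈ k.primeFactors.filter (fun p : ℕ => S < (p : ℝ)), K / S := by
          apply sum_le_sum
          intro p hp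
          obtain ⟨hp1, hp2⟩ := mem_filter.1 hp
          have hpp := Nat.prime_of_mem_primeFactors hp1
          refine (card_mult_le hK hpp.pos).trans ?_
          apply div_le_div_of_nonneg_left hK (by linarith) hp2.le
      _ = ((k.primeFactors.filter (fun p : ℕ => S < (p : ℝ))).card : ℝ) * (K / S) := by
          rw [sum_const, nsmul_eq_mul]
      _ ≤ Om * (K / S) := by
          apply mul_le_mul_of_nonneg_right _ (div_nonneg hK (by linarith))
          refine le_trans ?_ hOm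
          exact_mod_cast card_filter_le _ _
  have b3 : ∑ s ∈ SF z S, (((QK t K m).filter (fun x => s ∣ x)).card : ℝ) ≤ C * w * δ := by
    calc ∑ s ∈ SF z S, (((QK t K m).filter (fun x => s ∣ x)).card : ℝ)
        ≤ ∑ s ∈ SF z S, C * w * (1 / (s.totient : ℝ)) := by
          apply sum_le_sum
          intro s hs
          rw [mem_SF (by linarith)] at hs
          have e1 : (((QK t K m).filter (fun x => s ∣ x)).card : ℝ) ≤
              ((PR t (m * s)).card : ℝ) := by exact_mod_cast card_dvd_le hm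
          refine e1.trans ((hup s hs.1 hs.2.1).trans ?_)
          rw [mul_one_div]
      _ = C * w * ∑ s ∈ SF z S, 1 / (s.totient : ℝ) := by rw [mul_sum]
      _ ≤ C * w * δ := mul_le_mul_of_nonneg_left hSF (mul_nonneg hC hw)
  linarith

open Classical in
/-- pigeonhole over the good `k₀` -/
theorem pigeon {t D₀ v : ℝ} {l k : ℕ} (hl : 0 < l) (hD0 : 0 < D₀) (D : Finset ℕ)
    (hv : ∀ d ∈ D, v ≤ (((QK t (KZ t D₀ l) (2 * l * d)).filter (Good (KZ t D₀ l) k)).card : ℝ))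
    (n0 : ℝ) (hn00 : 0 ≤ n0) (hn0 : KZ t D₀ l * n0 < (D.card : ℝ) * v) :
    ∃ k₀ : ℕ, 1 ≤ k₀ ∧ (k₀ : ℝ) ≤ KZ t D₀ l ∧ Good (KZ t D₀ l) k k₀ ∧
      n0 ≤ ((DQ t l k₀ D).card : ℝ) := by
  have hl' : (0 : ℝ) < l := by exact_mod_cast hl
  have hK0 : 0 < KZ t D₀ l := by
    unfold KZ
    positivity
  set K := KZ t D₀ l with hK
  by_contra hcon
  push Not at hcon
  have h1 : (D.card : ℝ) * v ≤
      ∑ d ∈ D, (((QK t K (2 * l * d)).filter (Good K k)).card : ℝ) := by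
    calc (D.card : ℝ) * v = ∑ _d ∈ D, v := by rw [sum_const, nsmul_eq_mul]
      _ ≤ _ := sum_le_sum hv
  have h2 : ∑ d ∈ D, (((QK t K (2 * l * d)).filter (Good K k)).card : ℝ) =
      ∑ x ∈ (Icc 1 ⌊K⌋₊).filter (Good K k), ((DQ t l x D).card : ℝ) := by
    have e1 : ∀ d, ((QK t K (2 * l * d)).filter (Good K k)).card =
        (((Icc 1 ⌊K⌋₊).filter (Good K k)).filter (fun x => (1 + 2 * l * d * x).Prime ∧
          ((1 + 2 * l * d * x : ℕ) : ℝ) ≤ Real.exp t)).card := by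
      intro d
      unfold QK
      rw [filter_comm]
    set F := (Icc 1 ⌊K⌋₊).filter (Good K k) with hF
    have e2 : ∀ d, (((QK t K (2 * l * d)).filter (Good K k)).card : ℝ) =
        ∑ x ∈ F, if (1 + 2 * l * d * x).Prime ∧
          ((1 + 2 * l * d * x : ℕ) : ℝ) ≤ Real.exp t then (1 : ℝ) else 0 := by
      intro d
      rw [e1, card_filter]
      push_cast
      rfl
    have e3 : ∀ x, ((DQ t l x D).card : ℝ) =
        ∑ d ∈ D, if (1 + 2 * l * d * x).Prime ∧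
          ((1 + 2 * l * d * x : ℕ) : ℝ) ≤ Real.exp t then (1 : ℝ) else 0 := by
      intro x
      unfold DQ
      rw [card_filter]
      push_cast
      rfl
    rw [sum_congr rfl (fun d _ => e2 d), sum_congr rfl (fun x _ => e3 x), sum_comm]
  have h3 : ∑ x ∈ (Icc 1 ⌊K⌋₊).filter (Good K k), ((DQ t l x D).card : ℝ) ≤ K * n0 := by
    calc ∑ x ∈ (Icc 1 ⌊K⌋₊).filter (Good K k), ((DQ t l x D).card : ℝ)
        ≤ ∑ _x ∈ (Icc 1 ⌊K⌋₊).filter (Good K k), n0 := by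
          apply sum_le_sum
          intro x hx
          rw [mem_filter, mem_Icc] at hx
          refine (hcon x hx.1.1 ?_ hx.2).le
          exact (Nat.cast_le.mpr hx.1.2).trans (Nat.floor_le hK0.le)
      _ = (((Icc 1 ⌊K⌋₊).filter (Good K k)).card : ℝ) * n0 := by rw [sum_const, nsmul_eq_mul]
      _ ≤ (⌊K⌋₊ : ℝ) * n0 := by
          apply mul_le_mul_of_nonneg_right _ hn00
          have := card_filter_le (Icc 1 ⌊K⌋₊) (Good K k)
          rw [Nat.card_Icc, Nat.add_sub_cancel] at this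
          exact_mod_cast this
      _ ≤ K * n0 := mul_le_mul_of_nonneg_right (Nat.floor_le hK0.le) hn00
  rw [h2] at h1
  linarith

end Pool.Agent.Work.MP_2738db_nt_X.helper46
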