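import Pool.Agent.Work.MP_2738db_nt_X_helper46.DpqB

/-!
# MP_2738db_nt, Theorem X, block DPQ, part 3: the exceptional modulus and large `t` (helper46)
-/

set_option autoImplicit false

namespace Pool.Agent.Work.MP_2738db_nt_X.helper46

open Finset Filter
open Pool.Agent.Work.MP_2738db_nt_U (PY)
open Pool.Agent.Work.MP_2738db_nt_Z (PR DQ KZ)
open Pool.Agent.Work.MP_2738db_nt_Z.helper55.Dpr (mem_PY)

/-- the exceptional modulus is avoided, or divides `2 l` -/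
theorem avoid {y : ℝ} (hy : 2 ≤ y) {l : ℕ} (hl : l.Prime) (e : ℕ) :
    ∃ X : Finset ℕ, X.card ≤ 2 ∧
      ((∀ s ⊆ PY y \ X, ¬ e ∣ 2 * l * ∏ r ∈ s, r) ∨ e ∣ 2 * l) := by
  have hP : ∀ r ∈ PY y, r.Prime ∧ y < r ∧ (r : ℝ) ≤ 2 * y := fun r hr => mem_PY (by linarith) hr
  by_cases h : ∃ p ∈ PY y, p ∣ e ∧ p ≠ l
  · obtain ⟨p, hp, hpe, hpl⟩ := h
    refine ⟨{l, p}, card_le_two, Or.inl ?_⟩
    intro s hs hd
    have hpp := (hP p hp).1
    have h1 : p ∣ 2 * l * ∏ r ∈ s, r := hpe.trans hd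
    rcases (Nat.Prime.dvd_mul hpp).1 h1 with h2 | h2
    · rcases (Nat.Prime.dvd_mul hpp).1 h2 with h3 | h3
      · have h4 := Nat.le_of_dvd (by norm_num) h3
        have h5 := (hP p hp).2.1
        have h6 : (p : ℝ) ≤ 2 := by exact_mod_cast h4
        linarith
      · exact hpl ((Nat.prime_dvd_prime_iff_eq hpp hl).1 h3)
    · obtain ⟨r, hr, h3⟩ := (hpp.prime.dvd_finsetProd_iff _).1 h2
      have hr' := mem_sdiff.1 (hs hr)
      have h4 := (Nat.prime_dvd_prime_iff_eq hpp (hP r hr'.1).1).1 h3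
      apply hr'.2
      rw [← h4]
      simp
  · refine ⟨{l}, by simp, ?_⟩
    by_cases he : e ∣ 2 * l
    · exact Or.inr he
    left
    intro s hs hd
    have hco : Nat.Coprime e (∏ r ∈ s, r) := by
      apply Nat.Coprime.prod_right
      intro r hr
      have hr' := mem_sdiff.1 (hs hr)
      apply Nat.Coprime.symm
      rw [Nat.Prime.coprime_iff_not_dvd (hP r hr'.1).1]
      intro h1
      apply h
      refine ⟨r, hr'.1, h1, ?_⟩
      intro h2
      apply hr'.2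
      rw [h2]
      simp
    exact he (hco.dvd_of_dvd_mul_right hd)

/-- a common density factor for all moduli -/
theorem density {t y κ c C f : ℝ} {e l : ℕ} (hy : 2 ≤ y) (hl : l.Prime) (ht : 0 < t) (hc0 : 0 < c)
    (hc1 : c ≤ 1) (hC : 0 ≤ C) (he : 1 ≤ e) (hf0 : 0 < f) (hf1 : f ≤ 1) (hef : c / e ≤ f)
    (hS : ∀ d : ℕ, 1 ≤ d → (d : ℝ) ≤ Real.exp (κ * t) →
        (¬ e ∣ d → c * (Real.exp t / (d.totient * t)) ≤ ((PR t d).card : ℝ) ∧
          ((PR t d).card : ℝ) ≤ C * (Real.exp t / (d.totient * t))) ∧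
        (e ∣ d → c * (f * (Real.exp t / (d.totient * t))) ≤ ((PR t d).card : ℝ) ∧
          ((PR t d).card : ℝ) ≤ C * (f * (Real.exp t / (d.totient * t))))) :
    ∃ (X : Finset ℕ) (fs : ℝ), X.card ≤ 2 ∧ 0 < fs ∧ c / (2 * l) ≤ fs ∧
      ∀ s ⊆ PY y \ X, ∀ m : ℕ, m = 2 * l * ∏ r ∈ s, r →
        ((m : ℝ) ≤ Real.exp (κ * t) →
          c * (fs * (Real.exp t / (m.totient * t))) ≤ ((PR t m).card : ℝ)) ∧
        ∀ r : ℕ, 1 ≤ r → ((m * r : ℕ) : ℝ) ≤ Real.exp (κ * t) →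
          ((PR t (m * r)).card : ℝ) ≤ C * (fs * (Real.exp t / ((m * r).totient * t))) := by
  obtain ⟨X, hX, hX2⟩ := avoid hy hl e
  have hl0 : (0 : ℝ) < l := by exact_mod_cast hl.pos
  have hl1 : (1 : ℝ) ≤ l := by exact_mod_cast hl.one_lt.le
  have hP : ∀ r ∈ PY y, 0 < r := fun r hr => (mem_PY (by linarith) hr).1.pos
  have hpos : ∀ s ⊆ PY y \ X, 1 ≤ 2 * l * ∏ r ∈ s, r := by
    intro s hs
    have h1 : 0 < ∏ r ∈ s, r := prod_pos fun r hr => hP r (mem_sdiff.1 (hs hr)).1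
    exact Nat.mul_pos (Nat.mul_pos (by norm_num) hl.pos) h1
  rcases hX2 with h | h
  · refine ⟨X, 1, hX, one_pos, ?_, ?_⟩
    · rw [div_le_one (by positivity)]
      linarith
    · intro s hs m hm
      have hm1 : 1 ≤ m := by rw [hm]; exact hpos s hs
      have hne : ¬ e ∣ m := by rw [hm]; exact h s hs
      constructor
      · intro hmk
        rw [one_mul]
        exact ((hS m hm1 hmk).1 hne).1
      · intro r hr hmr
        have hmr1 : 1 ≤ m * r := Nat.mul_pos hm1 hr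
        rw [one_mul]
        by_cases hd : e ∣ m * r
        · refine (((hS (m * r) hmr1 hmr).2 hd).2).trans ?_
          apply mul_le_mul_of_nonneg_left _ hC
          have h0 : 0 ≤ Real.exp t / (((m * r).totient : ℝ) * t) := by positivity
          exact mul_le_of_le_one_left h0 hf1
        · exact ((hS (m * r) hmr1 hmr).1 hd).2
  · refine ⟨X, f, hX, hf0, ?_, ?_⟩
    · refine le_trans ?_ hef
      have h1 : e ≤ 2 * l := Nat.le_of_dvd (Nat.mul_pos (by norm_num) hl.pos) h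
      have h2 : (e : ℝ) ≤ 2 * l := by exact_mod_cast h1
      have h3 : (0 : ℝ) < e := by exact_mod_cast he
      exact div_le_div_of_nonneg_left hc0.le h3 h2
    · intro s hs m hm
      have hm1 : 1 ≤ m := by rw [hm]; exact hpos s hs
      have hem : e ∣ m := by
        rw [hm]
        exact h.mul_right _
      constructor
      · intro hmk
        exact ((hS m hm1 hmk).2 hem).1
      · intro r hr hmr
        exact ((hS (m * r) (Nat.mul_pos hm1 hr) hmr).2 (hem.mul_right r)).2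

/-- all conditions on large `t` -/
theorem large {η μ c C : ℝ} (h0 : 0 < η) (h1 : η < 1) (hμ : 0 < μ) (hc : 0 < c) (hC : 0 < C) :
    ∃ T : ℝ, ∀ t : ℝ, T ≤ t → Real.exp 8 ≤ t ∧ t ^ (1 - η) ≤ μ * t ∧ Real.log t ≤ μ * t ∧
      Real.log 2 ≤ μ * t ∧ Real.log (64 / c ^ 2) ≤ μ * t ∧ Real.log (32 * C / c) ≤ t ^ (1 - η) ∧
      Real.log (16 * C / c) ≤ t ^ (η / 2) := by
  have e1 : ∀ᶠ t : ℝ in atTop, t ^ (1 - η) ≤ μ * t := by
    have h2 := (tendsto_rpow_neg_atTop h0).eventually (gt_mem_nhds hμ)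
    filter_upwards [h2, eventually_gt_atTop (0 : ℝ)] with t ht ht0
    have h3 : t ^ (1 - η) = t ^ (-η) * t := by
      rw [sub_eq_neg_add, Real.rpow_add ht0, Real.rpow_one]
    rw [h3]
    exact mul_le_mul_of_nonneg_right (le_of_lt ht) ht0.le
  have e2 : ∀ᶠ t : ℝ in atTop, Real.log t ≤ μ * t := by
    filter_upwards [Real.isLittleO_log_id_atTop.bound hμ, eventually_ge_atTop (1 : ℝ)] with t ht ht0
    rw [Real.norm_eq_abs, Real.norm_eq_abs, abs_of_nonneg (Real.log_nonneg ht0), id,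
      abs_of_nonneg (by linarith)] at ht
    exact ht
  have e3 : ∀ᶠ t : ℝ in atTop, Real.log 2 ≤ μ * t :=
    (tendsto_id.const_mul_atTop hμ).eventually_ge_atTop _
  have e4 : ∀ᶠ t : ℝ in atTop, Real.log (64 / c ^ 2) ≤ μ * t :=
    (tendsto_id.const_mul_atTop hμ).eventually_ge_atTop _
  have e5 : ∀ᶠ t : ℝ in atTop, Real.log (32 * C / c) ≤ t ^ (1 - η) :=
    (tendsto_rpow_atTop (by linarith)).eventually_ge_atTop _
  have e6 : ∀ᶠ t : ℝ in atTop, Real.log (16 * C / c) ≤ t ^ (η / 2) :=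
    (tendsto_rpow_atTop (by linarith)).eventually_ge_atTop _
  obtain ⟨T, hT⟩ := eventually_atTop.mp
    ((((((eventually_ge_atTop (Real.exp 8)).and e1).and e2).and e3).and e4).and e5 |>.and e6)
  refine ⟨T, fun t ht => ?_⟩
  obtain ⟨⟨⟨⟨⟨⟨a1, a2⟩, a3⟩, a4⟩, a5⟩, a6⟩, a7⟩ := hT t ht
  exact ⟨a1, a2, a3, a4, a5, a6, a7⟩

end Pool.Agent.Work.MP_2738db_nt_X.helper46
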